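import Pool.Agent.Y472.K.DefsX
import Pool.Agent.W571.FE.EM

set_option autoImplicit false
set_option linter.all false

/-!
# Expansion of the product `Pq` to all orders (TKX-QDX)

`2 cos χ - 2 cos φ = exp (-i χ) (1 - exp (i (χ + φ))) (1 - exp (i (χ - φ)))`: all coefficients are
compositions of analytic functions of one variable on the upper half plane with linear maps.
-/

namespace Pool.Agent.Y971.TKX

open Finset Filter Topology MeasureTheory
open scoped Real
open Pool.Agent.Y472.K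

/-- the logarithm of `1 - exp (i w)` -/
noncomputable def el (w : ℂ) : ℂ := Complex.log (1 - Complex.exp (Complex.I * w))

lemma norm_exp_I (w : ℂ) : ‖Complex.exp (Complex.I * w)‖ = Real.exp (-w.im) := by
  rw [Complex.norm_exp]
  congr 1
  simp

lemma re_pos {w : ℂ} (hw : 0 < w.im) : 0 < (1 - Complex.exp (Complex.I * w)).re := by
  have h1 := norm_exp_I w
  have h2 : Real.exp (-w.im) < 1 := by
    rw [Real.exp_lt_one_iff]
    linarith
  have h3 := Complex.re_le_norm (Complex.exp (Complex.I * w))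
  rw [Complex.sub_re, Complex.one_re]
  linarith

lemma ne_zero {w : ℂ} (hw : 0 < w.im) : 1 - Complex.exp (Complex.I * w) ≠ 0 := by
  intro h
  have := re_pos hw
  rw [h, Complex.zero_re] at this
  exact lt_irrefl _ this

lemma isOpen_U : IsOpen {w : ℂ | 0 < w.im} := isOpen_lt continuous_const Complex.continuous_im

lemma el_diffAt {w : ℂ} (hw : 0 < w.im) : DifferentiableAt ℂ el w := by
  unfold el
  apply DifferentiableAt.clog (by fun_prop)
  rw [Complex.mem_slitPlane_iff]
  exact Or.inl (re_pos hw)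

lemma el_diffOn : DifferentiableOn ℂ el {w : ℂ | 0 < w.im} := fun w hw =>
  (el_diffAt hw).differentiableWithinAt

theorem diff_iter {F : ℂ → ℂ} {s : Set ℂ} (hs : IsOpen s) (hF : DifferentiableOn ℂ F s) (k : ℕ) :
    DifferentiableOn ℂ (iteratedDeriv k F) s := by
  induction k with
  | zero => rwa [iteratedDeriv_zero]
  | succ k ih =>
    rw [iteratedDeriv_succ]
    exact ih.deriv hs

lemma iter_diffAt (k : ℕ) {w : ℂ} (hw : 0 < w.im) : DifferentiableAt ℂ (iteratedDeriv k el) w :=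
  (diff_iter isOpen_U el_diffOn k).differentiableAt (isOpen_U.mem_nhds hw)

lemma iter_analyticAt (k : ℕ) {w : ℂ} (hw : 0 < w.im) : AnalyticAt ℂ (iteratedDeriv k el) w :=
  (diff_iter isOpen_U el_diffOn k).analyticAt (isOpen_U.mem_nhds hw)

lemma el_bound {w : ℂ} {a : ℝ} (ha : 0 < a) (hw : a ≤ w.im) :
    ‖el w‖ ≤ (1 - Real.exp (-a))⁻¹ / 2 + 1 := by
  have h1 := norm_exp_I w
  have h2 : Real.exp (-w.im) ≤ Real.exp (-a) := Real.exp_le_exp.mpr (by linarith)
  have h3 : Real.exp (-a) < 1 := by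
    rw [Real.exp_lt_one_iff]
    linarith
  have h4 : ‖-Complex.exp (Complex.I * w)‖ ≤ Real.exp (-a) := by rw [norm_neg, h1]; exact h2
  have h5 := Complex.norm_log_one_add_le (lt_of_le_of_lt h4 h3)
  unfold el
  rw [sub_eq_add_neg]
  refine h5.trans (add_le_add ?_ (h4.trans h3.le))
  refine div_le_div_of_nonneg_right ?_ (by norm_num)
  have h6 : (1 - ‖-Complex.exp (Complex.I * w)‖)⁻¹ ≤ (1 - Real.exp (-a))⁻¹ :=
    inv_anti₀ (by linarith) (by linarith)
  have h7 : ‖-Complex.exp (Complex.I * w)‖ ^ 2 ≤ 1 := pow_le_one₀ (norm_nonneg _) (h4.trans h3.le)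
  have h8 : 0 ≤ (1 - ‖-Complex.exp (Complex.I * w)‖)⁻¹ := by
    rw [inv_nonneg]
    linarith
  calc _ ≤ 1 * (1 - ‖-Complex.exp (Complex.I * w)‖)⁻¹ := mul_le_mul_of_nonneg_right h7 h8
    _ ≤ _ := by rw [one_mul]; exact h6

/-- the argument of `1 - z` -/
lemma arg_le {z : ℂ} {q : ℝ} (hq : q < 1) (hz : ‖z‖ ≤ q) : |Complex.arg (1 - z)| ≤ Real.arcsin q := by
  have hq0 : 0 ≤ q := (norm_nonneg _).trans hz
  have hre : 0 < (1 - z).re := by
    have := Complex.re_le_norm z
    rw [Complex.sub_re, Complex.one_re]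
    linarith
  have hn : 0 < ‖1 - z‖ := by
    rw [norm_pos_iff]
    intro h
    rw [h, Complex.zero_re] at hre
    exact lt_irrefl _ hre
  rw [Complex.arg_of_re_nonneg hre.le]
  have key : |(1 - z).im / ‖1 - z‖| ≤ q := by
    rw [abs_div, abs_of_pos hn, div_le_iff₀ hn]
    refine abs_le_of_sq_le_sq ?_ (by positivity)
    have h1 : ‖1 - z‖ ^ 2 = (1 - z).re ^ 2 + (1 - z).im ^ 2 := by
      rw [← Complex.normSq_eq_norm_sq, Complex.normSq_apply]; ring
    have h2 : z.re ^ 2 + z.im ^ 2 ≤ q ^ 2 := by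
      have h3 : ‖z‖ ^ 2 = z.re ^ 2 + z.im ^ 2 := by
        rw [← Complex.normSq_eq_norm_sq, Complex.normSq_apply]; ring
      rw [← h3]
      exact pow_le_pow_left₀ (norm_nonneg _) hz 2
    rw [mul_pow, h1]
    simp only [Complex.sub_re, Complex.one_re, Complex.sub_im, Complex.one_im]
    have h4 : 0 ≤ (1 - q ^ 2) * (q ^ 2 - (z.re ^ 2 + z.im ^ 2)) :=
      mul_nonneg (by nlinarith) (by linarith)
    nlinarith [sq_nonneg (z.re - q ^ 2)]
  rw [abs_le] at key ⊢
  rw [← Real.arcsin_neg]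
  exact ⟨Real.monotone_arcsin key.1, Real.monotone_arcsin key.2⟩

/-- the holomorphic logarithm of `2 cos χ - 2 cos 2 π w` -/
noncomputable def FF (χ w : ℂ) : ℂ := -(Complex.I * χ) + el (χ + 2 * π * w) + el (χ - 2 * π * w)

lemma exp_FF {χ w : ℂ} (h1 : 0 < (χ + 2 * π * w).im) (h2 : 0 < (χ - 2 * π * w).im) :
    Complex.exp (FF χ w) = 2 * Complex.cos χ - 2 * Complex.cos (2 * π * w) := by
  unfold FF el
  rw [Complex.exp_add, Complex.exp_add, Complex.exp_log (ne_zero h1), Complex.exp_log (ne_zero h2)]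
  generalize 2 * (π : ℂ) * w = φ
  rw [Complex.cos, Complex.cos]
  have e1 : Complex.exp (Complex.I * (χ + φ)) = Complex.exp (χ * Complex.I) * Complex.exp (φ * Complex.I) := by
    rw [← Complex.exp_add]; congr 1; ring
  have e2 : Complex.exp (Complex.I * (χ - φ)) = Complex.exp (χ * Complex.I) * Complex.exp (-φ * Complex.I) := by
    rw [← Complex.exp_add]; congr 1; ring
  have e3 : Complex.exp (-(Complex.I * χ)) = Complex.exp (-χ * Complex.I) := by congr 1; ring
  have e4 : Complex.exp (χ * Complex.I) * Complex.exp (-χ * Complex.I) = 1 := by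
    rw [← Complex.exp_add]; simp
  have e5 : Complex.exp (φ * Complex.I) * Complex.exp (-φ * Complex.I) = 1 := by
    rw [← Complex.exp_add]; simp
  rw [e1, e2, e3]
  generalize Complex.exp (χ * Complex.I) = a at *
  generalize Complex.exp (-χ * Complex.I) = a' at *
  generalize Complex.exp (φ * Complex.I) = b at *
  generalize Complex.exp (-φ * Complex.I) = b' at *
  linear_combination (-b - b' + a * b * b') * e4 + a * e5

lemma im_pm {x y t : ℝ} : ((x + y * Complex.I : ℂ) + 2 * π * (t : ℂ)).im = y ∧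
    ((x + y * Complex.I : ℂ) - 2 * π * (t : ℂ)).im = y := by
  have h : (2 * (π : ℂ) * (t : ℂ)) = ((2 * π * t : ℝ) : ℂ) := by push_cast; ring
  rw [h]
  simp

/-- the principal branch -/
lemma clf_eq {x y t : ℝ} (hy : 0 < y) (hx : |x| < π - 2 * Real.arcsin (Real.exp (-y))) :
    clf x y t = FF (x + y * Complex.I) t := by
  have hy1 : Real.exp (-y) < 1 := by
    rw [Real.exp_lt_one_iff]
    linarith
  obtain ⟨i1, i2⟩ := im_pm (x := x) (y := y) (t := t)
  have h1 := exp_FF (χ := x + y * Complex.I) (w := t) (by rw [i1]; exact hy) (by rw [i2]; exact hy)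
  have h2 : clf x y t = Complex.log (Complex.exp (FF (x + y * Complex.I) t)) := by
    rw [h1]
    unfold clf
    congr 3
    push_cast
    rfl
  rw [h2]
  have n1 : ‖Complex.exp (Complex.I * ((x + y * Complex.I : ℂ) + 2 * π * (t : ℂ)))‖ ≤ Real.exp (-y) := by
    rw [norm_exp_I, i1]
  have n2 : ‖Complex.exp (Complex.I * ((x + y * Complex.I : ℂ) - 2 * π * (t : ℂ)))‖ ≤ Real.exp (-y) := by
    rw [norm_exp_I, i2]
  have a1 := abs_le.mp (arg_le hy1 n1)
  have a2 := abs_le.mp (arg_le hy1 n2)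
  have a3 := abs_lt.mp hx
  have him : (FF (x + y * Complex.I) t).im = -x +
      Complex.arg (1 - Complex.exp (Complex.I * ((x + y * Complex.I : ℂ) + 2 * π * (t : ℂ)))) +
      Complex.arg (1 - Complex.exp (Complex.I * ((x + y * Complex.I : ℂ) - 2 * π * (t : ℂ)))) := by
    unfold FF el
    rw [Complex.add_im, Complex.add_im, Complex.log_im, Complex.log_im]
    congr 2
    simp
  refine Complex.log_exp ?_ ?_
  · rw [him]; linarith
  · rw [him]; linarith

/-- the iterated derivatives -/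
noncomputable def DF (k : ℕ) (χ w : ℂ) : ℂ := (if k = 0 then -(Complex.I * χ) else 0) +
  (2 * π) ^ k * iteratedDeriv k el (χ + 2 * π * w) + (-(2 * π)) ^ k * iteratedDeriv k el (χ - 2 * π * w)

lemma isOpen_W (χ : ℂ) : IsOpen {w : ℂ | 0 < (χ + 2 * π * w).im ∧ 0 < (χ - 2 * π * w).im} := by
  have h1 : IsOpen {w : ℂ | 0 < (χ + 2 * π * w).im} :=
    isOpen_lt continuous_const (Complex.continuous_im.comp (by fun_prop))
  have h2 : IsOpen {w : ℂ | 0 < (χ - 2 * π * w).im} :=
    isOpen_lt continuous_const (Complex.continuous_im.comp (by fun_prop))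
  exact h1.inter h2

lemma iter_FF (χ : ℂ) (k : ℕ) : ∀ w : ℂ, 0 < (χ + 2 * π * w).im → 0 < (χ - 2 * π * w).im →
    iteratedDeriv k (FF χ) w = DF k χ w := by
  induction k with
  | zero =>
    intro w _ _
    rw [iteratedDeriv_zero]
    unfold DF FF
    simp [iteratedDeriv_zero]
  | succ k ih =>
    intro w h1 h2
    rw [iteratedDeriv_succ]
    have he : iteratedDeriv k (FF χ) =ᶠ[𝓝 w] DF k χ := by
      filter_upwards [(isOpen_W χ).mem_nhds (show w ∈ {w : ℂ | 0 < (χ + 2 * π * w).im ∧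
        0 < (χ - 2 * π * w).im} from ⟨h1, h2⟩)] with v hv
      exact ih v hv.1 hv.2
    rw [he.deriv_eq]
    have d1 : HasDerivAt (fun w : ℂ => iteratedDeriv k el (χ + 2 * π * w))
        (iteratedDeriv (k + 1) el (χ + 2 * π * w) * (2 * π)) w := by
      have g1 := (iter_diffAt k h1).hasDerivAt
      rw [← iteratedDeriv_succ] at g1
      have g2 : HasDerivAt (fun w : ℂ => χ + 2 * π * w) (2 * π) w := by
        simpa using ((hasDerivAt_id w).const_mul (2 * (π : ℂ))).const_add χ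
      exact g1.comp w g2
    have d2 : HasDerivAt (fun w : ℂ => iteratedDeriv k el (χ - 2 * π * w))
        (iteratedDeriv (k + 1) el (χ - 2 * π * w) * (-(2 * π))) w := by
      have g1 := (iter_diffAt k h2).hasDerivAt
      rw [← iteratedDeriv_succ] at g1
      have g2 : HasDerivAt (fun w : ℂ => χ - 2 * π * w) (-(2 * π)) w := by
        simpa using ((hasDerivAt_id w).const_mul (2 * (π : ℂ))).const_sub χ
      exact g1.comp w g2
    have d3 := ((d1.const_mul ((2 * (π : ℂ)) ^ k)).const_add (if k = 0 then -(Complex.I * χ) else 0)).add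
      (d2.const_mul ((-(2 * (π : ℂ))) ^ k))
    have d4 : HasDerivAt (DF k χ) _ w := d3
    rw [d4.deriv]
    unfold DF
    rw [if_neg (Nat.succ_ne_zero k)]
    ring

/-- membership in a large disc of the upper half plane -/
lemma mem_disc {y : ℝ} (hy : 0 < y) {w : ℂ} (h1 : w.im = y) (h2 : |w.re| ≤ 3 * π) :
    w ∈ Metric.ball ((((3 * π) ^ 2 + y ^ 2) / y : ℝ) * Complex.I : ℂ) (((3 * π) ^ 2 + y ^ 2) / y) := by
  set R := ((3 * π) ^ 2 + y ^ 2) / y with hR
  have hR0 : 0 < R := by positivity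
  rw [Metric.mem_ball, dist_eq_norm]
  refine lt_of_pow_lt_pow_left₀ 2 hR0.le ?_
  rw [← Complex.normSq_eq_norm_sq, Complex.normSq_apply]
  simp only [Complex.sub_re, Complex.sub_im, Complex.mul_re, Complex.mul_im, Complex.ofReal_re,
    Complex.ofReal_im, Complex.I_re, Complex.I_im]
  rw [h1]
  have h3 : w.re ^ 2 ≤ (3 * π) ^ 2 := by
    rw [← sq_abs]
    exact pow_le_pow_left₀ (abs_nonneg _) h2 2
  have h4 : R * y = (3 * π) ^ 2 + y ^ 2 := by rw [hR]; field_simp
  have h5 : 0 < (3 * π) ^ 2 := by positivity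
  nlinarith

lemma disc_sub {y : ℝ} (hy : 0 < y) {w : ℂ}
    (h : w ∈ Metric.ball ((((3 * π) ^ 2 + y ^ 2) / y : ℝ) * Complex.I : ℂ) (((3 * π) ^ 2 + y ^ 2) / y)) :
    0 < w.im := by
  set R := ((3 * π) ^ 2 + y ^ 2) / y with hR
  rw [Metric.mem_ball, dist_eq_norm] at h
  have h1 := (Complex.abs_im_le_norm _).trans_lt h
  simp only [Complex.sub_im, Complex.mul_im, Complex.ofReal_re, Complex.ofReal_im, Complex.I_re,
    Complex.I_im] at h1
  rw [abs_lt] at h1
  linarith [h1.1]

lemma an1 (p : ℂ × ℂ) : AnalyticAt ℂ (fun p : ℂ × ℂ => p.2 + 2 * π * p.1) p :=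
  analyticAt_snd.add (analyticAt_const.mul analyticAt_fst)

lemma an2 (p : ℂ × ℂ) : AnalyticAt ℂ (fun p : ℂ × ℂ => p.2 - 2 * π * p.1) p :=
  analyticAt_snd.sub (analyticAt_const.mul analyticAt_fst)

theorem qdx : S_QDX := by
  intro y hy
  obtain ⟨b, hb⟩ := Pool.Agent.W571.FE.em 1 (by norm_num) (by norm_num)
  set R := ((3 * π) ^ 2 + y ^ 2) / y with hR
  have hpi := Real.pi_pos
  -- the primitive
  obtain ⟨G, hG⟩ : Complex.IsExactOn el (Metric.ball ((R : ℂ) * Complex.I) R) := by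
    refine DifferentiableOn.isExactOn_ball ?_
    intro w hw
    exact (el_diffAt (disc_sub hy hw)).differentiableWithinAt
  have hGa : ∀ w ∈ Metric.ball ((R : ℂ) * Complex.I) R, AnalyticAt ℂ G w := by
    intro w hw
    have h1 : DifferentiableOn ℂ G (Metric.ball ((R : ℂ) * Complex.I) R) := fun v hv =>
      (hG v hv).differentiableAt.differentiableWithinAt
    exact h1.analyticAt (Metric.isOpen_ball.mem_nhds hw)
  have hy1 : Real.exp (-y) < 1 := by
    rw [Real.exp_lt_one_iff]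
    linarith
  set r := π - 2 * Real.arcsin (Real.exp (-y)) with hr
  have hr0 : 0 < r := by
    have h1 : Real.arcsin (Real.exp (-y)) < π / 2 := Real.arcsin_lt_pi_div_two.mpr hy1
    rw [hr]; linarith
  have hrpi : r ≤ π := by
    have h1 : 0 ≤ Real.arcsin (Real.exp (-y)) := Real.arcsin_nonneg.mpr (Real.exp_pos _).le
    rw [hr]; linarith
  -- points of the disc
  have hmem : ∀ x t : ℝ, |x| < r → 0 ≤ t → t ≤ 1 →
      ((x + y * Complex.I : ℂ) + 2 * π * (t : ℂ)) ∈ Metric.ball ((R : ℂ) * Complex.I) R ∧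
      ((x + y * Complex.I : ℂ) - 2 * π * (t : ℂ)) ∈ Metric.ball ((R : ℂ) * Complex.I) R := by
    intro x t hx h0 h1
    obtain ⟨i1, i2⟩ := im_pm (x := x) (y := y) (t := t)
    have hx' := abs_lt.mp hx
    have e : (2 * (π : ℂ) * (t : ℂ)) = ((2 * π * t : ℝ) : ℂ) := by push_cast; ring
    have hpt : 0 ≤ 2 * π * t := by positivity
    have hpt1 : 2 * π * t ≤ 2 * π := by nlinarith
    constructor
    · refine mem_disc hy i1 ?_
      rw [e]
      simp only [Complex.add_re, Complex.mul_re, Complex.ofReal_re, Complex.ofReal_im, Complex.I_re,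
        Complex.I_im]
      rw [abs_le]
      constructor <;> linarith
    · refine mem_disc hy i2 ?_
      rw [e]
      simp only [Complex.add_re, Complex.sub_re, Complex.mul_re, Complex.ofReal_re, Complex.ofReal_im,
        Complex.I_re, Complex.I_im]
      rw [abs_le]
      constructor <;> linarith
  obtain ⟨Θ, hΘ⟩ : ∃ Θ : ℂ → ℂ → ℂ, Θ = fun t χ => -(Complex.I * χ * t) +
      (G (χ + 2 * π * t) - G (χ - 2 * π * t)) / (2 * π) := ⟨_, rfl⟩
  have h2pi : (2 * (π : ℂ)) ≠ 0 := by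
    have : (π : ℂ) ≠ 0 := by exact_mod_cast hpi.ne'
    exact mul_ne_zero two_ne_zero this
  have hΘd : ∀ x t : ℝ, |x| < r → 0 ≤ t → t ≤ 1 →
      HasDerivAt (fun w : ℂ => Θ w (x + y * Complex.I)) (FF (x + y * Complex.I) t) (t : ℂ) := by
    intro x t hx h0 h1
    obtain ⟨m1, m2⟩ := hmem x t hx h0 h1
    have g1 : HasDerivAt (fun w : ℂ => (x + y * Complex.I : ℂ) + 2 * π * w) (2 * π) (t : ℂ) := by
      simpa using ((hasDerivAt_id (t : ℂ)).const_mul (2 * (π : ℂ))).const_add (x + y * Complex.I : ℂ)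
    have g2 : HasDerivAt (fun w : ℂ => (x + y * Complex.I : ℂ) - 2 * π * w) (-(2 * π)) (t : ℂ) := by
      simpa using ((hasDerivAt_id (t : ℂ)).const_mul (2 * (π : ℂ))).const_sub (x + y * Complex.I : ℂ)
    have g3 := (hG _ m1).comp (t : ℂ) g1
    have g4 := (hG _ m2).comp (t : ℂ) g2
    have g5 : HasDerivAt (fun w : ℂ => -(Complex.I * (x + y * Complex.I : ℂ) * w))
        (-(Complex.I * (x + y * Complex.I : ℂ))) (t : ℂ) := by
      have h := ((hasDerivAt_id (t : ℂ)).const_mul (Complex.I * (x + y * Complex.I : ℂ))).neg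
      rw [mul_one] at h
      exact h
    have g6 := g5.add ((g3.sub g4).div_const (2 * (π : ℂ)))
    rw [hΘ]
    refine g6.congr_deriv ?_
    unfold FF
    field_simp
    ring
  have hint : ∀ a c x : ℝ, 0 ≤ a → a ≤ 1 → 0 ≤ c → c ≤ 1 → |x| < r →
      Θ a (x + y * Complex.I) - Θ c (x + y * Complex.I) =
        ∫ t in c..a, FF (x + y * Complex.I) (t : ℂ) := by
    intro a c x ha0 ha1 hc0 hc1 hx
    have hI : ∀ t ∈ Set.uIcc c a, 0 ≤ t ∧ t ≤ 1 := by
      intro t ht
      rw [Set.mem_uIcc] at ht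
      rcases ht with ht | ht
      · exact ⟨hc0.trans ht.1, ht.2.trans ha1⟩
      · exact ⟨ha0.trans ht.1, ht.2.trans hc1⟩
    symm
    refine intervalIntegral.integral_eq_sub_of_hasDerivAt (f := fun t : ℝ => Θ (t : ℂ) (x + y * Complex.I))
      (fun t ht => (hΘd x t hx (hI t ht).1 (hI t ht).2).comp_ofReal) ?_
    apply ContinuousOn.intervalIntegrable
    intro t ht
    obtain ⟨i1, i2⟩ := im_pm (x := x) (y := y) (t := t)
    have c1 : ContinuousAt (FF (x + y * Complex.I)) (t : ℂ) := by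
      unfold FF
      have d1 : ContinuousAt (fun w : ℂ => el ((x + y * Complex.I : ℂ) + 2 * π * w)) (t : ℂ) := by
        refine ContinuousAt.comp (g := el) (el_diffAt (by rw [i1]; exact hy)).continuousAt ?_
        fun_prop
      have d2 : ContinuousAt (fun w : ℂ => el ((x + y * Complex.I : ℂ) - 2 * π * w)) (t : ℂ) := by
        refine ContinuousAt.comp (g := el) (el_diffAt (by rw [i2]; exact hy)).continuousAt ?_
        fun_prop
      exact (continuousAt_const.add d1).add d2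
    exact (c1.comp (f := fun t : ℝ => (t : ℂ)) Complex.continuous_ofReal.continuousAt).continuousWithinAt
  refine ⟨Θ, fun k t χ => (b k : ℂ) * DF k χ t, ?_, ?_, r, hr0, ?_, ?_⟩
  · -- analyticity of the main term
    intro t h0 h1
    obtain ⟨m1, m2⟩ := hmem 0 t (by rw [abs_zero]; exact hr0) h0 h1
    rw [Complex.ofReal_zero, zero_add] at m1 m2
    rw [hΘ]
    have a1 : AnalyticAt ℂ (fun p : ℂ × ℂ => G (p.2 + 2 * π * p.1)) ((t : ℂ), y * Complex.I) :=
      (hGa _ m1).comp_of_eq (f := fun p : ℂ × ℂ => p.2 + 2 * π * p.1) (an1 _) rfl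
    have a2 : AnalyticAt ℂ (fun p : ℂ × ℂ => G (p.2 - 2 * π * p.1)) ((t : ℂ), y * Complex.I) :=
      (hGa _ m2).comp_of_eq (f := fun p : ℂ × ℂ => p.2 - 2 * π * p.1) (an2 _) rfl
    have a3 : AnalyticAt ℂ (fun p : ℂ × ℂ => -(Complex.I * p.2 * p.1)) ((t : ℂ), y * Complex.I) :=
      ((analyticAt_const.mul analyticAt_snd).mul analyticAt_fst).neg
    exact a3.add ((a1.sub a2).div_const)
  · -- analyticity of the coefficients
    intro k t h0 h1
    obtain ⟨i1, i2⟩ := im_pm (x := 0) (y := y) (t := t)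
    rw [Complex.ofReal_zero, zero_add] at i1 i2
    have a1 : AnalyticAt ℂ (fun p : ℂ × ℂ => iteratedDeriv k el (p.2 + 2 * π * p.1))
        ((t : ℂ), y * Complex.I) :=
      (iter_analyticAt k (w := (y * Complex.I : ℂ) + 2 * π * (t : ℂ)) (by rw [i1]; exact hy)).comp_of_eq
        (f := fun p : ℂ × ℂ => p.2 + 2 * π * p.1) (an1 _) rfl
    have a2 : AnalyticAt ℂ (fun p : ℂ × ℂ => iteratedDeriv k el (p.2 - 2 * π * p.1))
        ((t : ℂ), y * Complex.I) :=
      (iter_analyticAt k (w := (y * Complex.I : ℂ) - 2 * π * (t : ℂ)) (by rw [i2]; exact hy)).comp_of_eq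
        (f := fun p : ℂ × ℂ => p.2 - 2 * π * p.1) (an2 _) rfl
    have a3 : AnalyticAt ℂ (fun p : ℂ × ℂ => if k = 0 then -(Complex.I * p.2) else 0)
        ((t : ℂ), y * Complex.I) := by
      split_ifs
      · exact (analyticAt_const.mul analyticAt_snd).neg
      · exact analyticAt_const
    unfold DF
    exact analyticAt_const.mul ((a3.add (analyticAt_const.mul a1)).add (analyticAt_const.mul a2))
  · -- the integral
    intro a c x ha0 ha1 hc0 hc1 hx
    rw [hint a c x ha0 ha1 hc0 hc1 hx]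
    exact intervalIntegral.integral_congr fun t _ => (clf_eq hy hx).symm
  · intro K
    obtain ⟨C, hC0, hC⟩ := hb K
    set σ := y / (4 * π) with hσ
    have hσ0 : 0 < σ := by positivity
    set B := (r + y) + ((1 - Real.exp (-(y / 2)))⁻¹ / 2 + 1) + ((1 - Real.exp (-(y / 2)))⁻¹ / 2 + 1) with hB
    have hexp : Real.exp (-(y / 2)) < 1 := by
      rw [Real.exp_lt_one_iff]
      linarith
    have hB0 : 0 ≤ B := by
      have : 0 ≤ (1 - Real.exp (-(y / 2)))⁻¹ := by
        rw [inv_nonneg]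
        linarith
      rw [hB]
      positivity
    refine ⟨C * (B * (1 / σ) ^ (K + 1)), ?_⟩
    filter_upwards [eventually_ge_atTop (max 1 ⌈4 / σ⌉₊)] with N hN j i hji hiN x hx
    have hN1 : 1 ≤ N := (le_max_left _ _).trans hN
    have hNr : (0 : ℝ) < N := by exact_mod_cast hN1
    have hNc : (N : ℂ) ≠ 0 := by
      have : N ≠ 0 := by omega
      exact_mod_cast this
    have hN4 : 4 / σ ≤ N := by
      have h1 : ⌈4 / σ⌉₊ ≤ N := (le_max_right _ _).trans hN
      exact (Nat.le_ceil _).trans (by exact_mod_cast h1)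
    have hε : 4 * (1 / (N : ℝ)) ≤ σ := by
      rw [mul_one_div, div_le_iff₀ hNr]
      rw [div_le_iff₀ hσ0] at hN4
      linarith
    obtain ⟨χ, hχ⟩ : ∃ χ : ℂ, χ = x + y * Complex.I := ⟨_, rfl⟩
    rw [← hχ]
    have hχim : χ.im = y := by rw [hχ]; simp
    have hχn : ‖χ‖ ≤ r + y := by
      rw [hχ]
      refine (norm_add_le _ _).trans (add_le_add ?_ ?_)
      · rw [Complex.norm_real]; exact hx.le
      · rw [norm_mul, Complex.norm_I, mul_one, Complex.norm_real, Real.norm_of_nonneg hy.le]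
    -- the function near the segment
    have hreg : ∀ s : ℝ, ∀ w : ℂ, ‖w - s‖ < σ → y / 2 ≤ (χ + 2 * π * w).im ∧
        y / 2 ≤ (χ - 2 * π * w).im := by
      intro s w hw
      have h1 : |w.im| < σ := by
        have := (Complex.abs_im_le_norm (w - s)).trans_lt hw
        rwa [Complex.sub_im, Complex.ofReal_im, sub_zero] at this
      have h2 : (2 * (π : ℂ) * w).im = 2 * π * w.im := by
        have : (2 * (π : ℂ) * w) = ((2 * π : ℝ) : ℂ) * w := by push_cast; ring
        rw [this, Complex.im_ofReal_mul]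
      have h3 : 2 * π * σ = y / 2 := by rw [hσ]; field_simp; norm_num
      have h4 := abs_lt.mp h1
      have h5 : 2 * π * w.im < y / 2 := by rw [← h3]; exact mul_lt_mul_of_pos_left h4.2 (by positivity)
      have h6 : -(y / 2) < 2 * π * w.im := by
        rw [← h3, ← mul_neg]
        exact mul_lt_mul_of_pos_left h4.1 (by positivity)
      rw [Complex.add_im, Complex.sub_im, h2, hχim]
      constructor <;> linarith
    have hprop : ∀ s : ℝ, ∀ w : ℂ, ‖w - s‖ < σ → DifferentiableAt ℂ (FF χ) w ∧ ‖FF χ w‖ ≤ B := by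
      intro s w hw
      obtain ⟨h1, h2⟩ := hreg s w hw
      have hy2 : 0 < y / 2 := by positivity
      constructor
      · unfold FF
        have d1 : DifferentiableAt ℂ (fun w : ℂ => el (χ + 2 * π * w)) w :=
          DifferentiableAt.comp (g := el) w (el_diffAt (hy2.trans_le h1)) (by fun_prop)
        have d2 : DifferentiableAt ℂ (fun w : ℂ => el (χ - 2 * π * w)) w :=
          DifferentiableAt.comp (g := el) w (el_diffAt (hy2.trans_le h2)) (by fun_prop)
        exact ((differentiableAt_const _).add d1).add d2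
      · unfold FF
        refine (norm_add_le _ _).trans (add_le_add ((norm_add_le _ _).trans (add_le_add ?_ ?_)) ?_)
        · rw [norm_neg, norm_mul, Complex.norm_I, one_mul]
          exact hχn
        · exact el_bound hy2 h1
        · exact el_bound hy2 h2
    obtain ⟨z, hz⟩ : ∃ z : ℂ, z = (((j : ℝ) / N : ℝ) : ℂ) := ⟨_, rfl⟩
    have hz' : (j : ℂ) / N = z := by rw [hz]; push_cast; rfl
    have hem := hC (FF χ) z (i - j) (1 / (N : ℝ)) σ B (by positivity) hε (by
      intro s hs0 hs1 w hw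
      have h1 : z + s = (((j : ℝ) / N + s : ℝ) : ℂ) := by rw [hz]; push_cast; rfl
      rw [h1] at hw
      exact hprop _ w hw)
    have hnr : ((i - j : ℕ) : ℝ) = i - j := Nat.cast_sub hji
    have hnc : ((i - j : ℕ) : ℂ) = i - j := Nat.cast_sub hji
    have hnN : ((i - j : ℕ) : ℝ) * (1 / (N : ℝ)) = (i : ℝ) / N - (j : ℝ) / N := by
      rw [hnr]; field_simp
    have hj0 : (0 : ℝ) ≤ (j : ℝ) / N := by positivity
    have hjN : (j : ℝ) ≤ N := by exact_mod_cast hji.trans hiN
    have hiN' : (i : ℝ) ≤ N := by exact_mod_cast hiN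
    have hj1 : (j : ℝ) / N ≤ 1 := by rw [div_le_one hNr]; exact hjN
    have hi0 : (0 : ℝ) ≤ (i : ℝ) / N := by positivity
    have hi1 : (i : ℝ) / N ≤ 1 := by rw [div_le_one hNr]; exact hiN'
    have hend : z + ((i - j : ℕ) : ℂ) * ((1 / (N : ℝ) : ℝ) : ℂ) = (i : ℂ) / N := by
      rw [hnc, ← hz']
      push_cast
      field_simp
      ring
    rw [hend] at hem
    -- the sum
    have hsum : ∑ l ∈ range (i - j), FF χ (z + ((1 / (N : ℝ) : ℝ) : ℂ) * ((l : ℂ) + ((1 : ℝ) : ℂ))) =
        ∑ s ∈ Ioc j i, FF χ ((s : ℂ) / N) := by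
      have h1 : ∑ s ∈ Ioc j i, FF χ ((s : ℂ) / N) = ∑ s ∈ Ico (j + 1) (i + 1), FF χ ((s : ℂ) / N) := by
        refine sum_congr ?_ fun _ _ => rfl
        ext s
        simp only [mem_Ioc, mem_Ico]
        omega
      rw [h1, sum_Ico_eq_sum_range]
      rw [show i + 1 - (j + 1) = i - j by omega]
      refine sum_congr rfl fun l _ => ?_
      rw [← hz']
      congr 1
      push_cast
      field_simp
      ring
    have hprodE : Pq N j i χ = Complex.exp (∑ s ∈ Ioc j i, FF χ ((s : ℂ) / N)) := by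
      rw [Complex.exp_sum]
      unfold Pq
      refine prod_congr rfl fun s hs => ?_
      have e1 : (s : ℂ) / N = (((s : ℝ) / N : ℝ) : ℂ) := by push_cast; rfl
      obtain ⟨h1, h2⟩ := hreg ((s : ℝ) / N) ((s : ℂ) / N) (by rw [e1, sub_self, norm_zero]; exact hσ0)
      have hy2 : 0 < y / 2 := by positivity
      rw [exp_FF (hy2.trans_le h1) (hy2.trans_le h2)]
      congr 2
      push_cast
      congr 1
      ring
    have hintE : (∫ s in (0:ℝ)..(((i - j : ℕ) : ℝ) * (1 / (N : ℝ))), FF χ (z + s)) =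
        Θ ((i : ℂ) / N) χ - Θ ((j : ℂ) / N) χ := by
      have h1 := hint ((i : ℝ) / N) ((j : ℝ) / N) x hi0 hi1 hj0 hj1 hx
      rw [← hχ] at h1
      have e1 : (((i : ℝ) / N : ℝ) : ℂ) = (i : ℂ) / N := by push_cast; rfl
      have e2 : (((j : ℝ) / N : ℝ) : ℂ) = (j : ℂ) / N := by push_cast; rfl
      rw [e1, e2] at h1
      rw [h1, hnN]
      have h2 := intervalIntegral.integral_comp_add_left (a := 0) (b := (i : ℝ) / N - (j : ℝ) / N)
        (fun t : ℝ => FF χ (t : ℂ)) ((j : ℝ) / N)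
      rw [add_zero, add_sub_cancel] at h2
      rw [← h2]
      refine intervalIntegral.integral_congr fun s _ => ?_
      show FF χ (z + s) = FF χ (((j : ℝ) / N + s : ℝ) : ℂ)
      rw [hz]
      push_cast
      rfl
    rw [hsum, hintE] at hem
    obtain ⟨E, hE⟩ : ∃ E : ℂ, E = (∑ s ∈ Ioc j i, FF χ ((s : ℂ) / N)) -
        (((1 / (N : ℝ) : ℝ)) : ℂ)⁻¹ * (Θ ((i : ℂ) / N) χ - Θ ((j : ℂ) / N) χ) -
        ∑ k ∈ range K, (b k : ℂ) * ((1 / (N : ℝ) : ℝ) : ℂ) ^ k *
        (iteratedDeriv k (FF χ) ((i : ℂ) / N) - iteratedDeriv k (FF χ) z) := ⟨_, rfl⟩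
    rw [← hE] at hem
    refine ⟨E, ?_, ?_⟩
    · refine hem.trans ?_
      have hnle : ((i - j : ℕ) : ℝ) ≤ N := by
        rw [hnr]
        have : (0 : ℝ) ≤ j := Nat.cast_nonneg j
        linarith
      have e3 : C * (((i - j : ℕ) : ℝ) * B * (1 / (N : ℝ) / σ) ^ (K + 1)) ≤
          C * ((N : ℝ) * B * (1 / (N : ℝ) / σ) ^ (K + 1)) := by
        apply mul_le_mul_of_nonneg_left _ hC0
        apply mul_le_mul_of_nonneg_right _ (by positivity)
        exact mul_le_mul_of_nonneg_right hnle hB0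
      refine e3.trans (le_of_eq ?_)
      have e4 : (1 / (N : ℝ) / σ) ^ (K + 1) = (1 / (N : ℝ)) ^ (K + 1) * (1 / σ) ^ (K + 1) := by
        rw [← mul_pow]
        congr 1
        ring
      rw [e4]
      have e5 : (N : ℝ) * (1 / (N : ℝ)) ^ (K + 1) = 1 / (N : ℝ) ^ K := by
        rw [pow_succ, one_div, inv_pow, one_div]
        field_simp
      calc C * ((N : ℝ) * B * ((1 / (N : ℝ)) ^ (K + 1) * (1 / σ) ^ (K + 1)))
          = C * (B * (1 / σ) ^ (K + 1)) * ((N : ℝ) * (1 / (N : ℝ)) ^ (K + 1)) := by ring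
        _ = _ := by rw [e5]; ring
    · rw [hprodE]
      congr 1
      have e9 : ((1 / (N : ℝ) : ℝ) : ℂ)⁻¹ = N := by
        push_cast
        rw [one_div, inv_inv]
      have hzi : ∀ k, iteratedDeriv k (FF χ) ((i : ℂ) / N) = DF k χ ((i : ℂ) / N) := by
        intro k
        have e1 : (i : ℂ) / N = (((i : ℝ) / N : ℝ) : ℂ) := by push_cast; rfl
        obtain ⟨h1, h2⟩ := hreg ((i : ℝ) / N) ((i : ℂ) / N) (by rw [e1, sub_self, norm_zero]; exact hσ0)
        have hy2 : 0 < y / 2 := by positivity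
        exact iter_FF χ k _ (hy2.trans_le h1) (hy2.trans_le h2)
      have hzj : ∀ k, iteratedDeriv k (FF χ) z = DF k χ ((j : ℂ) / N) := by
        intro k
        have e1 : (j : ℂ) / N = (((j : ℝ) / N : ℝ) : ℂ) := by push_cast; rfl
        obtain ⟨h1, h2⟩ := hreg ((j : ℝ) / N) ((j : ℂ) / N) (by rw [e1, sub_self, norm_zero]; exact hσ0)
        have hy2 : 0 < y / 2 := by positivity
        rw [← hz']
        exact iter_FF χ k _ (hy2.trans_le h1) (hy2.trans_le h2)
      have e6 : ∑ k ∈ range K, (b k : ℂ) * ((1 / (N : ℝ) : ℝ) : ℂ) ^ k *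
          (iteratedDeriv k (FF χ) ((i : ℂ) / N) - iteratedDeriv k (FF χ) z) =
          ∑ k ∈ range K, ((b k : ℂ) * DF k χ ((i : ℂ) / N) - (b k : ℂ) * DF k χ ((j : ℂ) / N)) /
            (N : ℂ) ^ k := by
        refine sum_congr rfl fun k _ => ?_
        rw [hzi, hzj]
        push_cast
        rw [one_div_pow]
        ring
      rw [e9, e6] at hE
      rw [hE]
      ring

end Pool.Agent.Y971.TKX
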